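import Pool.Agent.H.MP_d958de_lc.A

namespace Pool.Agent.H.MP_f91556_lc

open Pool.Agent.H.MP_d958de_lc Filter Topology MvPolynomial Finset Asymptotics

/-- `m`-element subsets of `{0, …, d-1}` -/
abbrev Sub (d m : ℕ) := {R : Finset (Fin d) // #R = m}

/-- the product `F_{RC} v`, rows and columns in increasing order -/
noncomputable def prod {d m : ℕ} (R C : Sub d m) (v : Fin m → ℂ) (i : Fin m) : ℂ :=
  ∑ j, ((√d : ℝ) : ℂ)⁻¹ * Complex.exp (-2 * Real.pi * Complex.I * (R.1.orderEmbOfFin R.2 i).1 * (C.1.orderEmbOfFin C.2 j).1 / d) * v j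

theorem core (m T : ℕ) (hm : 1 ≤ m) (h : 6 * T + 1 < m * m) : ∃ d, m ≤ d ∧ ∃ C : Sub d m, ∀ {Q : Type} (M : Sub d m → Mach Q)
    (t : Sub d m → (Fin m → ℂ) → ℕ), (∀ R v, (M R).Out v (t R v) (prod R C v)) →
    ∃ v, 2 * #{R | t R v ≤ T} < Fintype.card (Sub d m) := by
  classical
  obtain ⟨P, P0, hP⟩ := exists_poly m T h
  obtain ⟨B, B2, hB⟩ := kron P0
  obtain ⟨K, hK⟩ : ∃ K : MvPolynomial (Fin m) ℂ, K = aeval (fun p => X p.1 ^ B ^ p.2.1) P := ⟨_, rfl⟩
  rw [← hK] at hB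
  obtain ⟨d, d1, d2, d3⟩ : ∃ d, 2 * m ≤ d ∧ B ^ m ≤ d ∧ 2 * K.totalDegree * 2 ^ m * m.factorial < d :=
    ⟨2 * m + B ^ m + (2 * K.totalDegree * 2 ^ m * m.factorial + 1), by omega, by omega, by omega⟩
  have d0 : 0 < d := by omega
  let c : Fin m → Fin d := fun j => ⟨B ^ j.1, (Nat.pow_lt_pow_right B2 j.2).trans_le d2⟩
  have cm : StrictMono c := fun i j h => Nat.pow_lt_pow_right B2 h
  have cc : #(univ.image c) = m := by simp [card_image_of_injective _ cm.injective]
  refine ⟨d, by omega, ⟨_, cc⟩, fun M t ht => ?_⟩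
  obtain ⟨v, hv⟩ := generic T M _ t ht
  refine ⟨v, ?_⟩
  have hw := (Complex.isPrimitiveRoot_exp d d0.ne').inv
  generalize hω : (Complex.exp (2 * Real.pi * Complex.I / d))⁻¹ = ω at hw
  have wi : Function.Injective fun r : Fin d => ω ^ r.1 := fun r s e => Fin.ext (hw.pow_inj r.2 s.2 e)
  have sz := schwartz_zippel_totalDegree hB (univ.image fun r : Fin d => ω ^ r.1)
  rw [card_image_of_injective _ wi, card_fin] at sz
  have le : #{R | t R v ≤ T} ≤ #{f ∈ Fintype.piFinset fun _ : Fin m => univ.image fun r : Fin d => ω ^ r.1 | eval f K = 0} := by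
    refine card_le_card_of_injOn (fun R i => ω ^ (R.1.orderEmbOfFin R.2 i).1) (fun R hR => ?_) fun R _ S _ e => ?_
    · obtain ⟨σ, a, o, e⟩ := hv R (mem_filter.1 hR).2
      have := hP σ a o (√d : ℝ) _ (mem_filter.1 hR).2
      simp only [coe_filter, Fintype.mem_piFinset, mem_image, mem_univ, true_and, Set.mem_ofPred_eq]
      refine ⟨fun i => ⟨_, rfl⟩, ?_⟩
      rw [hK, ← aeval_eq_eval, ← AlgHom.comp_apply, comp_aeval, ← this, ← aeval_eq_eval]
      refine congrArg (fun g => aeval g P) (funext fun p => ?_)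
      have s0 : ((√d : ℝ) : ℂ) ≠ 0 := by simpa using d0.ne'
      rw [e, mul_inv_cancel_left₀ s0, ← orderEmbOfFin_unique cc (fun j => mem_image_of_mem c (mem_univ j)) cm, map_pow,
        aeval_X, ← pow_mul, ← hω, ← Complex.exp_neg, ← Complex.exp_nat_mul]
      congr 1
      simp only [c]
      push_cast
      ring
    · have : (R.1.orderEmbOfFin R.2 : Fin m → Fin d) = S.1.orderEmbOfFin S.2 := funext fun i => wi (congrFun e i)
      refine Subtype.ext (coe_injective ?_)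
      rw [← range_orderEmbOfFin _ R.2, this, range_orderEmbOfFin]
  rw [Fintype.card_finset_len, Fintype.card_fin]
  have ch := Nat.pow_le_choose (α := ℚ≥0) m d
  have dq : (0 : ℚ≥0) < d := by exact_mod_cast d0
  rw [div_le_div_iff₀ (by positivity) dq] at sz
  rw [div_le_iff₀ (by exact_mod_cast m.factorial_pos)] at ch
  norm_cast at sz ch
  have h2 : d ^ m ≤ 2 ^ m * (d + 1 - m) ^ m := by rw [← mul_pow]; exact Nat.pow_le_pow_left (by omega) m
  by_contra! q
  have p1 : d ^ m ≤ 2 ^ m * m.factorial * (2 * #{R | t R v ≤ T}) := by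
    calc d ^ m ≤ 2 ^ m * (d.choose m * m.factorial) := h2.trans (Nat.mul_le_mul_left _ ch)
      _ ≤ _ := by rw [mul_comm (d.choose m), ← mul_assoc]; exact Nat.mul_le_mul_left _ q
  have p2 : d ^ m * d ≤ d ^ m * (2 * K.totalDegree * 2 ^ m * m.factorial) := by
    calc d ^ m * d ≤ 2 ^ m * m.factorial * 2 * (#{R | t R v ≤ T} * d) := by nlinarith
      _ ≤ 2 ^ m * m.factorial * 2 * (K.totalDegree * d ^ m) :=
        Nat.mul_le_mul_left _ ((Nat.mul_le_mul_right _ le).trans sz)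
      _ = _ := by ring
  exact absurd (Nat.le_of_mul_le_mul_left p2 (by positivity)) (by omega)

end Pool.Agent.H.MP_f91556_lc
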